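import Pool.Agent.W2helper18.KG.Stm

set_option autoImplicit false

/-!
# Project KG, piece LOC: the local inequality
-/

open Finset

namespace Pool.Agent.W2helper92.KG

open Pool.Agent.W2helper18.KG

/-- the kernel -/
def w (θ : ℝ) (i j : ℕ) : ℝ := θ ^ ((i - j) + (j - i))

theorem w_nonneg {θ : ℝ} (h : 0 ≤ θ) (i j : ℕ) : 0 ≤ w θ i j := pow_nonneg h _

theorem w_comm (θ : ℝ) (i j : ℕ) : w θ i j = w θ j i := by
  unfold w
  rw [add_comm]

theorem w_self (θ : ℝ) (i : ℕ) : w θ i i = 1 := by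
  unfold w
  simp

theorem w_pow (θ : ℝ) (i j : ℕ) : w θ i j ^ 4 = w (θ ^ 4) i j := by
  unfold w
  rw [← pow_mul, ← pow_mul, mul_comm]

theorem row_left (θ : ℝ) (i n : ℕ) (h : n ≤ i + 1) :
    (1 - θ) * ∑ j ∈ range n, w θ i j = θ ^ (i + 1 - n) - θ ^ (i + 1) := by
  induction n with
  | zero => simp
  | succ n ih =>
    rw [sum_range_succ, mul_add, ih (by omega)]
    obtain ⟨k, rfl⟩ : ∃ k, i = n + k := ⟨i - n, by omega⟩
    have e1 : n + k + 1 - n = k + 1 := by omega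
    have e2 : n + k + 1 - (n + 1) = k := by omega
    have e3 : w θ (n + k) n = θ ^ k := by
      unfold w
      congr 1
      omega
    rw [e1, e2, e3, pow_succ]
    ring

theorem row_right (θ : ℝ) (i m : ℕ) :
    (1 - θ) * ∑ j ∈ range (i + 1 + m), w θ i j = 1 - θ ^ (i + 1) + θ - θ ^ (m + 1) := by
  induction m with
  | zero =>
    rw [add_zero, row_left θ i (i + 1) le_rfl]
    simp
  | succ m ih =>
    rw [← add_assoc, sum_range_succ, mul_add, ih]
    have e3 : w θ i (i + 1 + m) = θ ^ (m + 1) := by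
      unfold w
      congr 1
      omega
    rw [e3]
    ring

theorem row_le {θ : ℝ} (h0 : 0 ≤ θ) (h1 : θ ≤ 1) (i n : ℕ) :
    (1 - θ) * ∑ j ∈ range n, w θ i j ≤ 1 + θ := by
  have hp : ∀ k, 0 ≤ θ ^ k := fun k => pow_nonneg h0 k
  rcases le_or_gt n (i + 1) with h | h
  · rw [row_left θ i n h]
    have h2 : θ ^ (i + 1 - n) ≤ 1 := pow_le_one₀ h0 h1
    have h3 := hp (i + 1)
    linarith
  · obtain ⟨m, rfl⟩ : ∃ m, n = i + 1 + m := ⟨n - (i + 1), by omega⟩
    rw [row_right]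
    have h2 := hp (i + 1)
    have h3 := hp (m + 1)
    linarith

/-- Schur test -/
theorem schur (s : Finset ℕ) (W : ℕ → ℕ → ℝ) (K : ℝ) (hW : ∀ i j, 0 ≤ W i j)
    (hr : ∀ i ∈ s, ∑ j ∈ s, W i j ≤ K) (hc : ∀ j ∈ s, ∑ i ∈ s, W i j ≤ K) (a b : ℕ → ℝ) :
    ∑ i ∈ s, ∑ j ∈ s, W i j * a i ^ 3 * b j ^ 3 ≤
      K * ((∑ i ∈ s, a i ^ 6 + ∑ j ∈ s, b j ^ 6) / 2) := by
  have h1 : ∀ i ∈ s, ∀ j ∈ s, W i j * a i ^ 3 * b j ^ 3 ≤
      W i j * (a i ^ 6 / 2) + W i j * (b j ^ 6 / 2) := by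
    intro i _ j _
    have h2 := hW i j
    have h3 : a i ^ 3 * b j ^ 3 ≤ a i ^ 6 / 2 + b j ^ 6 / 2 := by
      nlinarith [sq_nonneg (a i ^ 3 - b j ^ 3)]
    calc W i j * a i ^ 3 * b j ^ 3 = W i j * (a i ^ 3 * b j ^ 3) := by ring
      _ ≤ W i j * (a i ^ 6 / 2 + b j ^ 6 / 2) := mul_le_mul_of_nonneg_left h3 h2
      _ = _ := by ring
  have h2 : ∑ i ∈ s, ∑ j ∈ s, W i j * (a i ^ 6 / 2) ≤ ∑ i ∈ s, K * (a i ^ 6 / 2) := by
    refine sum_le_sum fun i hi => ?_
    rw [← sum_mul]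
    exact mul_le_mul_of_nonneg_right (hr i hi) (by positivity)
  have h3 : ∑ i ∈ s, ∑ j ∈ s, W i j * (b j ^ 6 / 2) ≤ ∑ j ∈ s, K * (b j ^ 6 / 2) := by
    rw [sum_comm]
    refine sum_le_sum fun j hj => ?_
    rw [← sum_mul]
    exact mul_le_mul_of_nonneg_right (hc j hj) (by positivity)
  calc ∑ i ∈ s, ∑ j ∈ s, W i j * a i ^ 3 * b j ^ 3
      ≤ ∑ i ∈ s, ∑ j ∈ s, (W i j * (a i ^ 6 / 2) + W i j * (b j ^ 6 / 2)) :=
        sum_le_sum fun i hi => sum_le_sum fun j hj => h1 i hi j hj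
    _ = ∑ i ∈ s, ∑ j ∈ s, W i j * (a i ^ 6 / 2) + ∑ i ∈ s, ∑ j ∈ s, W i j * (b j ^ 6 / 2) := by
        simp only [sum_add_distrib]
    _ ≤ ∑ i ∈ s, K * (a i ^ 6 / 2) + ∑ j ∈ s, K * (b j ^ 6 / 2) := add_le_add h2 h3
    _ = _ := by
        rw [← mul_sum, ← mul_sum, ← sum_div, ← sum_div]
        ring

theorem young {x y : ℝ} (hx : 0 ≤ x) (hy : 0 ≤ y) :
    x * y ^ 3 ≤ 16 * x ^ 4 + 3 / 16 * y ^ 4 := by
  have h1 : 0 ≤ (y - 4 * x) ^ 2 * (3 / 16 * y ^ 2 + 1 / 2 * x * y + x ^ 2) := by positivity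
  have h2 : (y - 4 * x) ^ 2 * (3 / 16 * y ^ 2 + 1 / 2 * x * y + x ^ 2) =
      16 * x ^ 4 + 3 / 16 * y ^ 4 - x * y ^ 3 := by ring
  linarith

theorem cube_le {x : ℝ} (hx : 0 ≤ x) : x ^ 3 ≤ 1 - 3 / 4 * (1 - x ^ 4) := by
  have h1 : 0 ≤ (x - 1) ^ 2 * (3 * x ^ 2 + 2 * x + 1) := by positivity
  have h2 : (x - 1) ^ 2 * (3 * x ^ 2 + 2 * x + 1) = 3 * x ^ 4 - 4 * x ^ 3 + 1 := by ring
  linarith

theorem off_le {θ : ℝ} (h0 : 0 ≤ θ) (h1 : θ ≤ 1 / 2) {n i : ℕ} (hi : i ∈ range n) :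
    ∑ j ∈ (range n).erase i, w θ i j ≤ 4 * θ := by
  have h2 := row_le h0 (by linarith) i n
  rw [← add_sum_erase _ _ hi, w_self] at h2
  have h3 : 0 ≤ ∑ j ∈ (range n).erase i, w θ i j := sum_nonneg fun j _ => w_nonneg h0 i j
  nlinarith

/-- the normalised inequality -/
theorem norm_ineq {θ : ℝ} (h0 : 0 ≤ θ) (h1 : θ ≤ 4 / 5) (n : ℕ) (a b : ℕ → ℝ)
    (ha : ∀ i, 0 ≤ a i) (hb : ∀ i, 0 ≤ b i) (hA : ∑ i ∈ range n, a i ^ 4 = 1)
    (hB : ∑ i ∈ range n, b i ^ 4 = 1) :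
    ∑ i ∈ range n, ∑ j ∈ range n, w θ i j * a i ^ 3 * b j ^ 3 ≤ 1 + 10 ^ 9 * θ ^ 4 := by
  have hle : ∀ (f : ℕ → ℝ), (∀ i, 0 ≤ f i) → ∑ i ∈ range n, f i ^ 4 = 1 → ∀ i ∈ range n,
      f i ≤ 1 := by
    intro f hf hs i hi
    have h2 : f i ^ 4 ≤ ∑ i ∈ range n, f i ^ 4 :=
      single_le_sum (f := fun i => f i ^ 4) (fun j _ => by positivity) hi
    rw [hs] at h2
    by_contra hn
    have h3 : 1 < f i ^ 4 := one_lt_pow₀ (not_le.1 hn) (by norm_num)
    linarith
  have ha1 := hle a ha hA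
  have hb1 := hle b hb hB
  have h6 : ∀ (f : ℕ → ℝ) (c : ℝ) (s : Finset ℕ), (∀ i, 0 ≤ f i) → (∀ i ∈ s, f i ^ 2 ≤ c) →
      ∑ i ∈ s, f i ^ 6 ≤ c * ∑ i ∈ s, f i ^ 4 := by
    intro f c s hf hs
    rw [mul_sum]
    refine sum_le_sum fun i hi => ?_
    have h2 := hs i hi
    have h3 : 0 ≤ f i ^ 4 := by positivity
    calc f i ^ 6 = f i ^ 2 * f i ^ 4 := by ring
      _ ≤ c * f i ^ 4 := mul_le_mul_of_nonneg_right h2 h3
  have hsq : ∀ x : ℝ, 0 ≤ x → x ≤ 1 → x ^ 2 ≤ 1 := fun x h2 h3 => by nlinarith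
  rcases le_or_gt θ (1 / 100) with hθ | hθ
  swap
  · -- crude bound
    have hrow : ∀ i ∈ range n, ∑ j ∈ range n, w θ i j ≤ 9 := by
      intro i _
      have h2 := row_le h0 (by linarith) i n
      have h3 : 0 ≤ ∑ j ∈ range n, w θ i j := sum_nonneg fun j _ => w_nonneg h0 i j
      nlinarith
    have h2 := schur (range n) (w θ) 9 (fun i j => w_nonneg h0 i j) hrow
      (fun j hj => by simpa only [w_comm θ _ j] using hrow j hj) a b
    have h3 := h6 a 1 (range n) ha (fun i hi => hsq _ (ha i) (ha1 i hi))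
    have h4 := h6 b 1 (range n) hb (fun i hi => hsq _ (hb i) (hb1 i hi))
    rw [hA] at h3
    rw [hB] at h4
    have h5 : (1 / 100 : ℝ) ^ 4 ≤ θ ^ 4 := pow_le_pow_left₀ (by norm_num) hθ.le 4
    have h7 : (1 / 100 : ℝ) ^ 4 = 1 / 10 ^ 8 := by norm_num
    rw [h7] at h5
    linarith
  · have hθ4 : 0 ≤ θ ^ 4 := by positivity
    by_cases hI : ∃ I ∈ range n, 1 - 4 * θ < a I * b I
    swap
    · -- all products are small
      push Not at hI
      let W : ℕ → ℕ → ℝ := fun i j => if i = j then 0 else w θ i j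
      have hW : ∀ i j, 0 ≤ W i j := by
        intro i j
        simp only [W]
        split_ifs
        · exact le_rfl
        · exact w_nonneg h0 i j
      have hrow : ∀ i ∈ range n, ∑ j ∈ range n, W i j ≤ 4 * θ := by
        intro i hi
        have h2 := off_le h0 (by linarith) hi
        rw [← add_sum_erase _ _ hi]
        have h3 : ∑ j ∈ (range n).erase i, W i j = ∑ j ∈ (range n).erase i, w θ i j := by
          refine sum_congr rfl fun j hj => ?_
          simp only [W]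
          rw [if_neg (mem_erase.1 hj).1.symm]
        have h4 : W i i = 0 := by simp [W]
        rw [h3, h4, zero_add]
        exact h2
      have hWc : ∀ i j, W i j = W j i := by
        intro i j
        simp only [W]
        rw [w_comm θ i j]
        simp only [eq_comm]
      have h2 := schur (range n) W (4 * θ) hW hrow
        (fun j hj => by simpa only [hWc _ j] using hrow j hj) a b
      have h3 := h6 a 1 (range n) ha (fun i hi => hsq _ (ha i) (ha1 i hi))
      have h4 := h6 b 1 (range n) hb (fun i hi => hsq _ (hb i) (hb1 i hi))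
      rw [hA] at h3
      rw [hB] at h4
      have h5 : ∑ i ∈ range n, ∑ j ∈ range n, w θ i j * a i ^ 3 * b j ^ 3 =
          ∑ i ∈ range n, a i ^ 3 * b i ^ 3 +
            ∑ i ∈ range n, ∑ j ∈ range n, W i j * a i ^ 3 * b j ^ 3 := by
        rw [← sum_add_distrib]
        refine sum_congr rfl fun i hi => ?_
        rw [← add_sum_erase _ _ hi, ← add_sum_erase (range n) (fun j => W i j * a i ^ 3 * b j ^ 3) hi]
        have e1 : W i i = 0 := by simp [W]
        rw [w_self, e1]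
        have e2 : ∑ j ∈ (range n).erase i, W i j * a i ^ 3 * b j ^ 3 =
            ∑ j ∈ (range n).erase i, w θ i j * a i ^ 3 * b j ^ 3 := by
          refine sum_congr rfl fun j hj => ?_
          simp only [W]
          rw [if_neg (mem_erase.1 hj).1.symm]
        rw [e2]
        ring
      have h7 : ∑ i ∈ range n, a i ^ 3 * b i ^ 3 ≤ (1 - 4 * θ) * 1 := by
        have e1 : ∑ i ∈ range n, a i ^ 3 * b i ^ 3 ≤
            ∑ i ∈ range n, (1 - 4 * θ) * ((a i ^ 4 + b i ^ 4) / 2) := by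
          refine sum_le_sum fun i hi => ?_
          have e2 := hI i hi
          have e3 : a i ^ 2 * b i ^ 2 ≤ (a i ^ 4 + b i ^ 4) / 2 := by
            nlinarith [sq_nonneg (a i ^ 2 - b i ^ 2)]
          have e4 : 0 ≤ a i ^ 2 * b i ^ 2 := by positivity
          calc a i ^ 3 * b i ^ 3 = (a i * b i) * (a i ^ 2 * b i ^ 2) := by ring
            _ ≤ (1 - 4 * θ) * (a i ^ 2 * b i ^ 2) := mul_le_mul_of_nonneg_right e2 e4
            _ ≤ (1 - 4 * θ) * ((a i ^ 4 + b i ^ 4) / 2) :=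
              mul_le_mul_of_nonneg_left e3 (by linarith)
        rw [← mul_sum, ← sum_div, sum_add_distrib, hA, hB] at e1
        linarith
      rw [h5]
      nlinarith
    · -- one product is large
      obtain ⟨I, hIn, hI⟩ := hI
      have haI := ha1 I hIn
      have hbI := hb1 I hIn
      have haI0 := ha I
      have hbI0 := hb I
      have haI' : 1 - 4 * θ ≤ a I := by nlinarith
      have hbI' : 1 - 4 * θ ≤ b I := by nlinarith
      have hfour : ∀ x : ℝ, 1 - 4 * θ ≤ x → 1 - x ^ 4 ≤ 16 * θ := by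
        intro x hx
        have e1 : (1 - 4 * θ) ^ 4 ≤ x ^ 4 := pow_le_pow_left₀ (by linarith) hx 4
        have e2 : 1 - 16 * θ ≤ (1 - 4 * θ) ^ 4 := by
          have := one_add_mul_le_pow (show (-2 : ℝ) ≤ -(4 * θ) by linarith) 4
          push_cast at this
          have e3 : 1 + -(4 * θ) = 1 - 4 * θ := by ring
          rw [e3] at this
          linarith
        linarith
      obtain ⟨A, hAd⟩ : ∃ A, A = 1 - a I ^ 4 := ⟨_, rfl⟩
      obtain ⟨B, hBd⟩ : ∃ B, B = 1 - b I ^ 4 := ⟨_, rfl⟩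
      have hA16 : A ≤ 16 * θ := by rw [hAd]; exact hfour _ haI'
      have hB16 : B ≤ 16 * θ := by rw [hBd]; exact hfour _ hbI'
      have hAsum : ∑ i ∈ (range n).erase I, a i ^ 4 = A := by
        rw [← add_sum_erase _ _ hIn] at hA
        linarith
      have hBsum : ∑ i ∈ (range n).erase I, b i ^ 4 = B := by
        rw [← add_sum_erase _ _ hIn] at hB
        linarith
      have hA0 : 0 ≤ A := by rw [← hAsum]; exact sum_nonneg fun i _ => by positivity
      have hB0 : 0 ≤ B := by rw [← hBsum]; exact sum_nonneg fun i _ => by positivity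
      have hsmall : ∀ (f : ℕ → ℝ) (c : ℝ), (∀ i, 0 ≤ f i) →
          ∑ i ∈ (range n).erase I, f i ^ 4 = c → c ≤ 16 * θ → ∀ i ∈ (range n).erase I,
          f i ^ 2 ≤ 2 / 5 := by
        intro f c hf hs hc i hi
        have h2 : f i ^ 4 ≤ ∑ i ∈ (range n).erase I, f i ^ 4 :=
          single_le_sum (f := fun i => f i ^ 4) (fun j _ => by positivity) hi
        rw [hs] at h2
        by_contra hn
        push Not at hn
        have h3 : (2 / 5 : ℝ) ^ 2 < (f i ^ 2) ^ 2 := by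
          exact pow_lt_pow_left₀ hn (by norm_num) (by norm_num)
        have h4 : (f i ^ 2) ^ 2 = f i ^ 4 := by ring
        rw [h4] at h3
        norm_num at h3
        linarith
      -- the four parts
      have hsplit : ∑ i ∈ range n, ∑ j ∈ range n, w θ i j * a i ^ 3 * b j ^ 3 =
          a I ^ 3 * b I ^ 3 + a I ^ 3 * ∑ j ∈ (range n).erase I, w θ I j * b j ^ 3 +
          b I ^ 3 * ∑ i ∈ (range n).erase I, w θ I i * a i ^ 3 +
          ∑ i ∈ (range n).erase I, ∑ j ∈ (range n).erase I, w θ i j * a i ^ 3 * b j ^ 3 := by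
        rw [← add_sum_erase _ _ hIn, ← add_sum_erase (range n) (fun j => w θ I j * a I ^ 3 * b j ^ 3)
          hIn, w_self]
        have e1 : ∑ i ∈ (range n).erase I, ∑ j ∈ range n, w θ i j * a i ^ 3 * b j ^ 3 =
            ∑ i ∈ (range n).erase I, (w θ i I * a i ^ 3 * b I ^ 3 +
              ∑ j ∈ (range n).erase I, w θ i j * a i ^ 3 * b j ^ 3) := by
          refine sum_congr rfl fun i _ => ?_
          rw [← add_sum_erase _ _ hIn]
        rw [e1, sum_add_distrib, mul_sum, mul_sum]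
        have e2 : ∑ i ∈ (range n).erase I, w θ i I * a i ^ 3 * b I ^ 3 =
            ∑ i ∈ (range n).erase I, b I ^ 3 * (w θ I i * a i ^ 3) := by
          refine sum_congr rfl fun i _ => ?_
          rw [w_comm θ i I]
          ring
        have e3 : ∑ j ∈ (range n).erase I, w θ I j * a I ^ 3 * b j ^ 3 =
            ∑ j ∈ (range n).erase I, a I ^ 3 * (w θ I j * b j ^ 3) := by
          refine sum_congr rfl fun j _ => ?_
          ring
        rw [e2, e3]
        ring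
      have hcross : ∀ (f : ℕ → ℝ), (∀ i, 0 ≤ f i) →
          ∑ j ∈ (range n).erase I, w θ I j * f j ^ 3 ≤
            64 * θ ^ 4 + 3 / 16 * ∑ j ∈ (range n).erase I, f j ^ 4 := by
        intro f hf
        have e1 : ∑ j ∈ (range n).erase I, w θ I j * f j ^ 3 ≤
            ∑ j ∈ (range n).erase I, (16 * w (θ ^ 4) I j + 3 / 16 * f j ^ 4) := by
          refine sum_le_sum fun j _ => ?_
          rw [← w_pow]
          exact young (w_nonneg h0 I j) (hf j)
        rw [sum_add_distrib, ← mul_sum, ← mul_sum] at e1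
        have e2 : θ ^ 4 ≤ 1 / 2 := by
          have : θ ^ 4 ≤ (1 / 100) ^ 4 := pow_le_pow_left₀ h0 hθ 4
          norm_num at this
          linarith
        have e3 := off_le hθ4 e2 hIn
        linarith
      have hcb := hcross b hb
      have hca := hcross a ha
      rw [hBsum] at hcb
      rw [hAsum] at hca
      have hcube1 : ∀ x : ℝ, 0 ≤ x → x ≤ 1 → x ^ 3 ≤ 1 := fun x h2 h3 => pow_le_one₀ h2 h3
      have hpos : ∀ f : ℕ → ℝ, (∀ i, 0 ≤ f i) →
          0 ≤ ∑ j ∈ (range n).erase I, w θ I j * f j ^ 3 := fun f hf =>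
        sum_nonneg fun j _ => mul_nonneg (w_nonneg h0 I j) (pow_nonneg (hf j) 3)
      have p1 : a I ^ 3 * ∑ j ∈ (range n).erase I, w θ I j * b j ^ 3 ≤
          64 * θ ^ 4 + 3 / 16 * B := by
        have := mul_le_mul_of_nonneg_right (hcube1 _ haI0 haI) (hpos b hb)
        linarith
      have p2 : b I ^ 3 * ∑ i ∈ (range n).erase I, w θ I i * a i ^ 3 ≤
          64 * θ ^ 4 + 3 / 16 * A := by
        have := mul_le_mul_of_nonneg_right (hcube1 _ hbI0 hbI) (hpos a ha)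
        linarith
      have p3 : a I ^ 3 * b I ^ 3 ≤ (1 - 3 / 4 * A) * (1 - 3 / 4 * B) := by
        have e1 := cube_le haI0
        have e2 := cube_le hbI0
        rw [← hAd] at e1
        rw [← hBd] at e2
        have e3 : 0 ≤ a I ^ 3 := by positivity
        have e4 : 0 ≤ b I ^ 3 := by positivity
        calc a I ^ 3 * b I ^ 3 ≤ (1 - 3 / 4 * A) * b I ^ 3 := mul_le_mul_of_nonneg_right e1 e4
          _ ≤ (1 - 3 / 4 * A) * (1 - 3 / 4 * B) := mul_le_mul_of_nonneg_left e2 (by linarith)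
      have p4 : ∑ i ∈ (range n).erase I, ∑ j ∈ (range n).erase I, w θ i j * a i ^ 3 * b j ^ 3 ≤
          21 / 20 * ((2 / 5 * A + 2 / 5 * B) / 2) := by
        have hrow : ∀ i ∈ (range n).erase I, ∑ j ∈ (range n).erase I, w θ i j ≤ 21 / 20 := by
          intro i _
          have e1 := row_le h0 (by linarith) i n
          have e2 : ∑ j ∈ (range n).erase I, w θ i j ≤ ∑ j ∈ range n, w θ i j :=
            sum_le_sum_of_subset_of_nonneg (erase_subset _ _) fun j _ _ => w_nonneg h0 i j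
          have e3 : 0 ≤ ∑ j ∈ range n, w θ i j := sum_nonneg fun j _ => w_nonneg h0 i j
          have e4 : ∑ j ∈ range n, w θ i j ≤ 21 / 20 := by nlinarith
          linarith
        have e1 := schur ((range n).erase I) (w θ) (21 / 20) (fun i j => w_nonneg h0 i j) hrow
          (fun j hj => by simpa only [w_comm θ _ j] using hrow j hj) a b
        have e2 := h6 a (2 / 5) _ ha (hsmall a A ha hAsum hA16)
        have e3 := h6 b (2 / 5) _ hb (hsmall b B hb hBsum hB16)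
        rw [hAsum] at e2
        rw [hBsum] at e3
        refine e1.trans ?_
        linarith
      rw [hsplit]
      have hAB : A * B ≤ 4 / 25 * A := by nlinarith
      have hAB' : A * B ≤ 4 / 25 * B := by nlinarith
      nlinarith

/-- PIECE LOC -/
theorem p_loc : P_LOC := by
  intro θ h0 h1 n a b ha hb
  obtain ⟨SA, hSA⟩ : ∃ SA, SA = ∑ i ∈ range n, a i ^ 4 := ⟨_, rfl⟩
  obtain ⟨SB, hSB⟩ : ∃ SB, SB = ∑ i ∈ range n, b i ^ 4 := ⟨_, rfl⟩
  rw [← hSA, ← hSB]
  have hSA0 : 0 ≤ SA := by rw [hSA]; exact sum_nonneg fun i _ => by positivity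
  have hSB0 : 0 ≤ SB := by rw [hSB]; exact sum_nonneg fun i _ => by positivity
  have hR : 0 ≤ (1 + 10 ^ 9 * θ ^ 4) * (Real.sqrt (Real.sqrt (SA * SB))) ^ 3 := by positivity
  have hzero : ∀ f : ℕ → ℝ, ∑ i ∈ range n, f i ^ 4 = 0 → ∀ i ∈ range n, f i = 0 := by
    intro f hf i hi
    have := (sum_eq_zero_iff_of_nonneg fun j _ => by positivity).1 hf i hi
    exact pow_eq_zero_iff (by norm_num) |>.1 this
  rcases hSA0.eq_or_lt with hz | hApos
  · refine le_trans (le_of_eq ?_) hR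
    refine sum_eq_zero fun i hi => sum_eq_zero fun j _ => ?_
    rw [hzero a (by rw [← hSA, ← hz]) i hi]
    ring
  rcases hSB0.eq_or_lt with hz | hBpos
  · refine le_trans (le_of_eq ?_) hR
    refine sum_eq_zero fun i _ => sum_eq_zero fun j hj => ?_
    rw [hzero b (by rw [← hSB, ← hz]) j hj]
    ring
  obtain ⟨α, hα⟩ : ∃ α, α = Real.sqrt (Real.sqrt SA) := ⟨_, rfl⟩
  obtain ⟨β, hβ⟩ : ∃ β, β = Real.sqrt (Real.sqrt SB) := ⟨_, rfl⟩
  have hfour : ∀ S : ℝ, 0 < S → 0 < Real.sqrt (Real.sqrt S) ∧ (Real.sqrt (Real.sqrt S)) ^ 4 = S := by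
    intro S hS
    refine ⟨Real.sqrt_pos.2 (Real.sqrt_pos.2 hS), ?_⟩
    have e1 : (Real.sqrt (Real.sqrt S)) ^ 4 = ((Real.sqrt (Real.sqrt S)) ^ 2) ^ 2 := by ring
    rw [e1, Real.sq_sqrt (Real.sqrt_nonneg _), Real.sq_sqrt hS.le]
  obtain ⟨hαpos, hα4⟩ := hfour SA hApos
  obtain ⟨hβpos, hβ4⟩ := hfour SB hBpos
  rw [← hα] at hαpos hα4
  rw [← hβ] at hβpos hβ4
  have hprod : Real.sqrt (Real.sqrt (SA * SB)) = α * β := by
    rw [Real.sqrt_mul hSA0, Real.sqrt_mul (Real.sqrt_nonneg _), hα, hβ]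
  have key := norm_ineq h0 h1 n (fun i => a i / α) (fun i => b i / β)
    (fun i => div_nonneg (ha i) hαpos.le) (fun i => div_nonneg (hb i) hβpos.le)
    (by simp only [div_pow]; rw [← sum_div, ← hSA, hα4, div_self hApos.ne'])
    (by simp only [div_pow]; rw [← sum_div, ← hSB, hβ4, div_self hBpos.ne'])
  have hc : 0 < (α * β) ^ 3 := by positivity
  have h2 := mul_le_mul_of_nonneg_right key hc.le
  rw [hprod]
  refine le_trans (le_of_eq ?_) h2
  rw [sum_mul]
  refine sum_congr rfl fun i _ => ?_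
  rw [sum_mul]
  refine sum_congr rfl fun j _ => ?_
  unfold w
  field_simp

end Pool.Agent.W2helper92.KG
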